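import Pool.Agent.L0h82.CH.Defs

/-! Project CH, module NSING. -/

set_option autoImplicit false

open Cardinal Set

namespace Pool.Agent.L0h84.CH

open Pool.Agent.L0h82.CH

universe u

theorem s_NSING (h1 : S_HAU.{u}) (h2 : S_SUP.{u}) : S_NSING.{u} := by
  rintro κ hκ hreg ⟨C, _, hC, hR⟩
  have hinf : ℵ₀ ≤ κ := hκ.aleph0_le
  have hcof : κ.ord.cof < κ := by
    by_contra h
    exact hreg ⟨hinf, not_lt.1 h⟩
  have hsucc : ∀ m < κ, Order.succ m < κ := fun m hm =>
    (Order.succ_le_of_lt (Cardinal.cantor m)).trans_lt (hκ.two_power_lt hm)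
  have hcopy : ∀ m < κ, ℵ₀ ≤ m →
      ∃ g : (Order.succ m).ord.ToType → C, StrictMono g ∨ StrictAnti g := by
    intro m hm hm2
    refine h1 C m hm2 ?_
    rw [hC]
    exact hκ.two_power_lt hm
  by_cases hcase : ∀ m < κ, ∃ m' < κ, m ≤ m' ∧
      ∃ g : (Order.succ m').ord.ToType → C, StrictMono g
  · obtain ⟨S, f, hf, hcard⟩ := h2 C κ hinf hC hcof hsucc hcase
    have := hR.2 S f hf
    rw [hcard, hC] at this
    exact lt_irrefl _ this
  · push Not at hcase
    obtain ⟨m₀, hm₀, hno⟩ := hcase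
    have hdual : ∀ m < κ, ∃ m' < κ, m ≤ m' ∧
        ∃ g : (Order.succ m').ord.ToType → Cᵒᵈ, StrictMono g := by
      intro m hm
      have hlt : max (max m₀ ℵ₀) m < κ := by
        have hω : ℵ₀ < κ := by
          refine lt_of_le_of_ne hinf fun h => hreg ?_
          rw [← h]
          exact Cardinal.isRegular_aleph0
        exact max_lt (max_lt hm₀ hω) hm
      refine ⟨max (max m₀ ℵ₀) m, hlt, le_max_right _ _, ?_⟩
      obtain ⟨g, hg⟩ := hcopy _ hlt ((le_max_right _ _).trans (le_max_left _ _))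
      rcases hg with hg | hg
      · exact absurd hg (hno _ hlt ((le_max_left _ _).trans (le_max_left _ _)) g)
      · exact ⟨fun a => OrderDual.toDual (g a), fun a b hab => hg hab⟩
    obtain ⟨S, f, hf, hcard⟩ := h2 Cᵒᵈ κ hinf hC hcof hsucc hdual
    have := hR.2 (OrderDual.toDual ⁻¹' S) (fun x => OrderDual.ofDual (f (OrderDual.toDual x)))
      (fun x hx y hy hxy => hf hy hx hxy)
    rw [hC] at this
    exact lt_irrefl _ (hcard ▸ this)

end Pool.Agent.L0h84.CH
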