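import Pool.Agent.L0h82.CH.Defs

/-! Project CH, module NWC. -/

set_option autoImplicit false

open Cardinal Set

namespace Pool.Agent.L0h84.CH

open Pool.Agent.L0h82.CH

universe u

/-- there is a strictly monotone self-map of `κ` without fixed points -/
theorem exists_shift (κ : Cardinal.{u}) (hκ : ℵ₀ ≤ κ) :
    ∃ s : κ.ord.ToType → κ.ord.ToType, StrictMono s ∧ ∀ a, s a ≠ a := by
  have hno : ∀ a : κ.ord.ToType, ∃ b, a < b := by
    have := Cardinal.noMaxOrder hκ
    exact fun a => exists_gt a
  have hne : ∀ a : κ.ord.ToType, (Set.Ioi a).Nonempty := fun a => hno a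
  let s : κ.ord.ToType → κ.ord.ToType := fun a => WellFounded.min wellFounded_lt (Set.Ioi a) (hne a)
  have h1 : ∀ a, a < s a := fun a => WellFounded.min_mem wellFounded_lt (Set.Ioi a) (hne a)
  have h2 : ∀ a b, a < b → s a ≤ b := fun a b h =>
    WellFounded.min_le wellFounded_lt (show b ∈ Set.Ioi a from h)
  exact ⟨s, fun a b h => (h2 a b h).trans_lt (h1 b), fun a => (h1 a).ne'⟩

/-- a copy of `κ` or of its reverse in a chain of cardinality `κ` moves too many points -/
theorem not_rigid {C : Type u} [LinearOrder C] (hκ : ℵ₀ ≤ #C)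
    (h : ∃ g : (#C).ord.ToType → C, StrictMono g ∨ StrictAnti g) : ¬ Rigid C := by
  intro hR
  obtain ⟨g, hg⟩ := h
  obtain ⟨s, hs, hs2⟩ := exists_shift (#C) hκ
  have hinj : Function.Injective g := by
    rcases hg with hg | hg
    · exact hg.injective
    · exact hg.injective
  have hN : Nonempty ((#C).ord.ToType) := by
    have : #((#C).ord.ToType) ≠ 0 := by
      rw [Cardinal.mk_ord_toType]
      exact (Cardinal.aleph0_pos.trans_le hκ).ne'
    exact Cardinal.mk_ne_zero_iff.1 this
  have hinv : ∀ a, Function.invFun g (g a) = a := Function.leftInverse_invFun hinj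
  set f : C → C := fun x => g (s (Function.invFun g x)) with hf
  have hfg : ∀ a, f (g a) = g (s a) := fun a => by
    show g (s (Function.invFun g (g a))) = g (s a)
    rw [hinv]
  have hmono : StrictMonoOn f (Set.range g) := by
    rintro _ ⟨a, rfl⟩ _ ⟨b, rfl⟩ hab
    rw [hfg, hfg]
    rcases hg with hg | hg
    · exact hg (hs (hg.lt_iff_lt.1 hab))
    · exact hg (hs (hg.lt_iff_gt.1 hab))
  have h1 := hR.2 (Set.range g) f hmono
  have h2 : {x : C | x ∈ Set.range g ∧ f x ≠ x} = Set.range g := by
    ext x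
    constructor
    · exact fun h => h.1
    · rintro ⟨a, rfl⟩
      refine ⟨⟨a, rfl⟩, ?_⟩
      rw [hfg]
      exact fun h => hs2 a (hinj h)
  rw [h2, Cardinal.mk_range_eq g hinj, Cardinal.mk_ord_toType] at h1
  exact lt_irrefl _ h1

theorem s_NWC : S_NWC.{u} := by
  rintro κ hκ h ⟨C, _, hC, hR⟩
  subst hC
  exact not_rigid hκ (h C rfl) hR

end Pool.Agent.L0h84.CH
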